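import Pool.Agent.H174.GP.StA
import Pool.Agent.H174.GP.StP
import Pool.Agent.H174.GP.StC

open MeasureTheory ProbabilityTheory Finset

namespace Pool.Agent.H116.GP174

open Pool.Agent.H174.GP

/-- The event that the block sum over `J` is at least `T`. -/
def Ev (ψ : ℕ → ℝ → ℝ) (J : Finset ℕ) (T : ℝ) : Set (ℕ → ℝ) := {ω | T ≤ ∑ j ∈ J, ψ j (ω j)}

theorem Ev_meas (ψ : ℕ → ℝ → ℝ) (J : Finset ℕ) (T : ℝ) (h : ∀ j ∈ J, Measurable (ψ j)) :
    MeasurableSet (Ev ψ J T) :=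
  measurableSet_le measurable_const
    (Finset.measurable_fun_sum J (fun j hj => (h j hj).comp (measurable_pi_apply j)))

theorem Ev_dep (ψ : ℕ → ℝ → ℝ) (J : Finset ℕ) (T : ℝ) : DepOn J (Ev ψ J T) := by
  intro ω ω' h h1
  have h2 : ∑ j ∈ J, ψ j (ω j) = ∑ j ∈ J, ψ j (ω' j) :=
    Finset.sum_congr rfl (fun j hj => by rw [h j hj])
  show T ≤ ∑ j ∈ J, ψ j (ω' j)
  rw [← h2]
  exact h1

/-- The intersection of two block events. -/
theorem Ev_mul (h3 : S_indep) (ψ : ℕ → ℝ → ℝ) (I J K : Finset ℕ) (T U : ℝ) (hd : Disjoint I J)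
    (hK : I ∪ J = K)
    (h : ∀ j ∈ K, Measurable (ψ j)) :
    PP.real (Ev ψ I T) * PP.real (Ev ψ J U) ≤ PP.real (Ev ψ K (T + U)) := by
  subst hK
  have hI : ∀ j ∈ I, Measurable (ψ j) := fun j hj => h j (Finset.mem_union_left _ hj)
  have hJ : ∀ j ∈ J, Measurable (ψ j) := fun j hj => h j (Finset.mem_union_right _ hj)
  rw [← h3 I J (Ev ψ I T) (Ev ψ J U) hd (Ev_meas ψ I T hI) (Ev_meas ψ J U hJ) (Ev_dep ψ I T)
    (Ev_dep ψ J U)]
  apply measureReal_mono
  · rintro ω ⟨h1, h2⟩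
    show T + U ≤ ∑ j ∈ I ∪ J, ψ j (ω j)
    rw [Finset.sum_union hd]
    exact add_le_add h1 h2
  · exact measure_ne_top _ _

theorem gp_big (h1 : S_pz) (h2 : S_half) (h3 : S_indep) : S_big := by
  intro cv Cv κ R hcv hCv hκ hR
  set κ' : ℝ := κ / cv ^ 2 with hκ'
  have hκ'0 : 0 ≤ κ' := by positivity
  set c0 : ℝ := (9 / 32) / (3 + κ') with hc0
  have hc0p : 0 < c0 := by positivity
  set G : ℕ := ⌈8 * R ^ 2 / cv⌉₊ + 1 with hG
  have hG1 : 1 ≤ G := by omega
  have hGR : 8 * R ^ 2 ≤ cv * G := by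
    have e1 : 8 * R ^ 2 / cv ≤ (G : ℝ) := by
      have := Nat.le_ceil (8 * R ^ 2 / cv)
      rw [hG]
      push_cast
      linarith
    rw [div_le_iff₀ hcv] at e1
    linarith
  refine ⟨c0 ^ G * (1 / 2), by positivity, G, ?_⟩
  intro φ A L hA hL
  have hApos := hA.pos
  set ψ : ℕ → ℝ → ℝ := fun j x => (j : ℝ) * φ j x with hψ
  set s : ℕ := L / G with hs
  have hs1 : 1 ≤ s := by
    rw [hs]
    exact (Nat.one_le_div_iff (by omega)).2 hL
  have hGs : G * s ≤ L := by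
    rw [hs]
    exact Nat.mul_div_le L G
  have hsL : (L : ℝ) ≤ 2 * G * s := by
    have e1 : L < G * s + G := by
      rw [hs]
      exact Nat.lt_mul_div_succ L (by omega)
    have e2 : G ≤ G * s := Nat.le_mul_of_pos_right G (by omega)
    have e3 : L ≤ 2 * G * s := by nlinarith
    exact_mod_cast e3
  have hsr : (1 : ℝ) ≤ s := by exact_mod_cast hs1
  have hmeas : ∀ j ∈ Finset.Icc 1 L, Measurable (ψ j) := fun j hj =>
    ((hA.mono j hj).measurable).const_mul (j : ℝ)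
  have hodd : ∀ j ∈ Finset.Icc 1 L, ∀ x, ψ j (-x) = - ψ j x := by
    intro j hj x
    show (j : ℝ) * φ j (-x) = - ((j : ℝ) * φ j x)
    rw [hA.odd j hj x]
    ring
  have hint : ∀ j ∈ Finset.Icc 1 L, Integrable (fun x => (ψ j x) ^ 4) lap := by
    intro j hj
    have e1 : (fun x => (ψ j x) ^ 4) = fun x => (j : ℝ) ^ 4 * (φ j x) ^ 4 := by
      funext x
      show ((j : ℝ) * φ j x) ^ 4 = _
      ring
    rw [e1]
    exact (hA.int j hj).const_mul _
  have hsub : ∀ a b : ℕ, b ≤ L → ∀ j ∈ Finset.Ioc a b, j ∈ Finset.Icc 1 L := by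
    intro a b hb j hj
    rw [Finset.mem_Ioc] at hj
    rw [Finset.mem_Icc]
    omega
  set T : ℝ := Real.sqrt (cv * A ^ 2 * s) / 2 with hT
  -- one group
  have hgroup : ∀ g : ℕ, g < G → c0 ≤ PP.real (Ev ψ (Finset.Ioc (g * s) ((g + 1) * s)) T) := by
    intro g hg
    have hb : (g + 1) * s ≤ L := le_trans (Nat.mul_le_mul_right s hg) hGs
    set J := Finset.Ioc (g * s) ((g + 1) * s) with hJ
    have hJL : ∀ j ∈ J, j ∈ Finset.Icc 1 L := hsub _ _ hb
    have hcard : J.card = s := by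
      rw [hJ, Nat.card_Ioc]
      have : (g + 1) * s = g * s + s := by ring
      omega
    have hjpos : ∀ j ∈ J, (0 : ℝ) < (j : ℝ) := by
      intro j hj
      have := Finset.mem_Icc.1 (hJL j hj)
      exact_mod_cast this.1
    set V : ℝ := ∑ j ∈ J, ∫ x, (ψ j x) ^ 2 ∂lap with hV
    have hV1 : cv * A ^ 2 * s ≤ V := by
      have e1 : ∑ j ∈ J, (cv * A ^ 2) ≤ V := by
        apply Finset.sum_le_sum
        intro j hj
        have e2 : ∫ x, (ψ j x) ^ 2 ∂lap = (j : ℝ) ^ 2 * ∫ x, (φ j x) ^ 2 ∂lap := by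
          rw [← integral_const_mul]
          congr 1
          funext x
          show ((j : ℝ) * φ j x) ^ 2 = _
          ring
        rw [e2]
        have e3 := hA.lo j (hJL j hj)
        have e4 := hjpos j hj
        calc cv * A ^ 2 = (j : ℝ) ^ 2 * (cv * A ^ 2 / (j : ℝ) ^ 2) := by field_simp
          _ ≤ _ := mul_le_mul_of_nonneg_left e3 (by positivity)
      rw [Finset.sum_const, hcard, nsmul_eq_mul] at e1
      linarith
    have hF1 : (∑ j ∈ J, ∫ x, (ψ j x) ^ 4 ∂lap) ≤ κ * A ^ 4 * s := by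
      have e1 : (∑ j ∈ J, ∫ x, (ψ j x) ^ 4 ∂lap) ≤ ∑ j ∈ J, (κ * A ^ 4) := by
        apply Finset.sum_le_sum
        intro j hj
        have e2 : ∫ x, (ψ j x) ^ 4 ∂lap = (j : ℝ) ^ 4 * ∫ x, (φ j x) ^ 4 ∂lap := by
          rw [← integral_const_mul]
          congr 1
          funext x
          show ((j : ℝ) * φ j x) ^ 4 = _
          ring
        rw [e2]
        have e3 := hA.four j (hJL j hj)
        have e4 := hjpos j hj
        calc (j : ℝ) ^ 4 * ∫ x, (φ j x) ^ 4 ∂lap ≤ (j : ℝ) ^ 4 * (κ * A ^ 4 / (j : ℝ) ^ 4) :=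
              mul_le_mul_of_nonneg_left e3 (by positivity)
          _ = κ * A ^ 4 := by field_simp
      rw [Finset.sum_const, hcard, nsmul_eq_mul] at e1
      linarith
    have hF2 : (∑ j ∈ J, ∫ x, (ψ j x) ^ 4 ∂lap) ≤ κ' * V ^ 2 := by
      have e1 : κ' * (cv * A ^ 2 * s) ^ 2 = κ * A ^ 4 * (s : ℝ) ^ 2 := by
        rw [hκ']
        field_simp
      have e2 : (cv * A ^ 2 * s) ^ 2 ≤ V ^ 2 := pow_le_pow_left₀ (by positivity) hV1 2
      have e3 : κ' * (cv * A ^ 2 * s) ^ 2 ≤ κ' * V ^ 2 := mul_le_mul_of_nonneg_left e2 hκ'0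
      have e4 : κ * A ^ 4 * (s : ℝ) ≤ κ * A ^ 4 * (s : ℝ) ^ 2 := by
        apply mul_le_mul_of_nonneg_left _ (by positivity)
        nlinarith
      linarith
    have hp := h1 J ψ κ' hκ'0 (fun j hj => hmeas j (hJL j hj)) (fun j hj => hodd j (hJL j hj))
      (fun j hj => hint j (hJL j hj)) hF2
    refine le_trans hp ?_
    apply measureReal_mono
    · intro ω hω
      have hω' : Real.sqrt V / 2 ≤ ∑ j ∈ J, ψ j (ω j) := hω
      show T ≤ ∑ j ∈ J, ψ j (ω j)
      have e1 : Real.sqrt (cv * A ^ 2 * s) ≤ Real.sqrt V := Real.sqrt_le_sqrt hV1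
      rw [hT]
      linarith
    · exact measure_ne_top _ _
  -- all groups
  have hall : ∀ g : ℕ, g ≤ G → c0 ^ g ≤ PP.real (Ev ψ (Finset.Ioc 0 (g * s)) (g * T)) := by
    intro g
    induction g with
    | zero =>
      intro _
      have e1 : Ev ψ (Finset.Ioc 0 (0 * s)) ((0 : ℕ) * T) = Set.univ := by
        ext ω
        simp [Ev]
      rw [e1]
      simp
    | succ g ih =>
      intro hg
      have e1 := ih (by omega)
      have e2 := hgroup g (by omega)
      have hb : (g + 1) * s ≤ L := le_trans (Nat.mul_le_mul_right s hg) hGs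
      have hgs : g * s ≤ (g + 1) * s := Nat.mul_le_mul_right s (by omega)
      have e3 := Ev_mul h3 ψ (Finset.Ioc 0 (g * s)) (Finset.Ioc (g * s) ((g + 1) * s))
        (Finset.Ioc 0 ((g + 1) * s)) (g * T) T
        (by
          rw [Finset.disjoint_left]
          intro j hj hj'
          rw [Finset.mem_Ioc] at hj hj'
          omega)
        (Finset.Ioc_union_Ioc_eq_Ioc (Nat.zero_le _) hgs)
        (fun j hj => hmeas j (hsub _ _ hb j hj))
      have e4 : ((g : ℝ) * T + T) = ((g + 1 : ℕ) : ℝ) * T := by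
        push_cast
        ring
      rw [e4] at e3
      calc c0 ^ (g + 1) = c0 ^ g * c0 := pow_succ _ _
        _ ≤ _ := mul_le_mul e1 e2 hc0p.le measureReal_nonneg
        _ ≤ _ := e3
  have hA1 := hall G le_rfl
  have hA2 : 1 / 2 ≤ PP.real (Ev ψ (Finset.Ioc (G * s) L) 0) :=
    h2 (Finset.Ioc (G * s) L) ψ (fun j hj => hmeas j (hsub _ _ le_rfl j hj))
      (fun j hj => hodd j (hsub _ _ le_rfl j hj))
  have hA3 := Ev_mul h3 ψ (Finset.Ioc 0 (G * s)) (Finset.Ioc (G * s) L) (Finset.Icc 1 L)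
    (G * T) 0
    (by
      rw [Finset.disjoint_left]
      intro j hj hj'
      rw [Finset.mem_Ioc] at hj hj'
      omega)
    (by
      rw [Finset.Ioc_union_Ioc_eq_Ioc (Nat.zero_le _) hGs]
      ext j
      rw [Finset.mem_Ioc, Finset.mem_Icc]
      omega)
    hmeas
  have hfin : R * A * Real.sqrt L ≤ G * T + 0 := by
    have e0 : R * A * Real.sqrt L = Real.sqrt (R ^ 2 * A ^ 2 * L) := by
      rw [Real.sqrt_mul (by positivity), Real.sqrt_mul (by positivity), Real.sqrt_sq hR.le,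
        Real.sqrt_sq hApos.le]
    have e1 : G * T + 0 = Real.sqrt ((G : ℝ) ^ 2 * (cv * A ^ 2 * s) / 4) := by
      have e2 : (G : ℝ) ^ 2 * (cv * A ^ 2 * s) / 4 = ((G : ℝ) / 2) ^ 2 * (cv * A ^ 2 * s) := by
        ring
      rw [e2, Real.sqrt_mul (by positivity), Real.sqrt_sq (by positivity), hT]
      ring
    rw [e0, e1]
    apply Real.sqrt_le_sqrt
    have hA2 : 0 < A ^ 2 := by positivity
    have e5 : R ^ 2 * (L : ℝ) ≤ (G : ℝ) ^ 2 * (cv * s) / 4 := by
      have e6 : R ^ 2 * (L : ℝ) ≤ R ^ 2 * (2 * G * s) := mul_le_mul_of_nonneg_left hsL (by positivity)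
      have e7 : (8 * R ^ 2) * ((G : ℝ) * s) ≤ (cv * G) * ((G : ℝ) * s) :=
        mul_le_mul_of_nonneg_right hGR (by positivity)
      nlinarith
    calc R ^ 2 * A ^ 2 * L = A ^ 2 * (R ^ 2 * (L : ℝ)) := by ring
      _ ≤ A ^ 2 * ((G : ℝ) ^ 2 * (cv * s) / 4) := mul_le_mul_of_nonneg_left e5 hA2.le
      _ = _ := by ring
  calc c0 ^ G * (1 / 2) ≤ _ := mul_le_mul hA1 hA2 (by norm_num) measureReal_nonneg
    _ ≤ _ := hA3
    _ ≤ _ := by
      apply measureReal_mono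
      · intro ω hω
        have hω' : G * T + 0 ≤ ∑ j ∈ Finset.Icc 1 L, ψ j (ω j) := hω
        show R * A * Real.sqrt L ≤ ∑ j ∈ Finset.Icc 1 L, (j : ℝ) * φ j (ω j)
        exact le_trans hfin hω'
      · exact measure_ne_top _ _

end Pool.Agent.H116.GP174
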