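import Pool.Agent.H174.GP.StD
import Pool.Agent.H174.GP.StA
import Pool.Agent.H174.GP.StP
import Pool.Agent.H922.GP174.aalaw

open MeasureTheory ProbabilityTheory Finset Filter Topology

namespace Pool.Agent.H116.GP174

open Pool.Agent.H174.GP

namespace Tilt

/-- mean of the geometric variable -/
noncomputable def mg (a : ℝ) : ℝ := Real.exp (-a) / (1 - Real.exp (-a))

theorem osp {a : ℝ} (ha : 0 < a) : 0 < 1 - Real.exp (-a) := by
  have : Real.exp (-a) < 1 := by
    rw [Real.exp_lt_one_iff]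
    linarith
  linarith

theorem mg_pos {a : ℝ} (ha : 0 < a) : 0 < mg a := div_pos (Real.exp_pos _) (osp ha)

theorem osp_ge (a : ℝ) : a * Real.exp (-a) ≤ 1 - Real.exp (-a) := by
  have h1 : a + 1 ≤ Real.exp a := Real.add_one_le_exp a
  have h2 : 0 < Real.exp (-a) := Real.exp_pos _
  have h3 : Real.exp a * Real.exp (-a) = 1 := by rw [← Real.exp_add]; simp
  nlinarith

theorem mg_diff_aux {a b s2 : ℝ} (ha : 0 < a) (hab : a ≤ b) (hb : b ≤ s2) :
    |mg a - mg b| ≤ (b - a) * Real.exp s2 / (a * b) := by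
  have hb0 : 0 < b := by linarith
  have ea := osp ha
  have eb := osp hb0
  have e1 : mg a - mg b = (Real.exp (-a) - Real.exp (-b)) /
      ((1 - Real.exp (-a)) * (1 - Real.exp (-b))) := by
    unfold mg
    field_simp
    ring
  have e2 : Real.exp (-b) ≤ Real.exp (-a) := Real.exp_le_exp.2 (by linarith)
  have e3 : Real.exp (-a) - Real.exp (-b) ≤ Real.exp (-a) * (b - a) := by
    have h1 : -(b - a) + 1 ≤ Real.exp (-(b - a)) := Real.add_one_le_exp _
    have h2 : Real.exp (-b) = Real.exp (-a) * Real.exp (-(b - a)) := by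
      rw [← Real.exp_add]
      congr 1
      ring
    have h3 : 0 < Real.exp (-a) := Real.exp_pos _
    rw [h2]
    nlinarith
  have e4 : (a * Real.exp (-a)) * (b * Real.exp (-b)) ≤
      (1 - Real.exp (-a)) * (1 - Real.exp (-b)) :=
    mul_le_mul (osp_ge a) (osp_ge b) (by positivity) ea.le
  rw [e1, abs_of_nonneg (div_nonneg (by linarith) (by positivity))]
  have e5 : (Real.exp (-a) - Real.exp (-b)) / ((1 - Real.exp (-a)) * (1 - Real.exp (-b))) ≤
      (Real.exp (-a) * (b - a)) / ((a * Real.exp (-a)) * (b * Real.exp (-b))) :=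
    div_le_div₀ (mul_nonneg (Real.exp_pos _).le (by linarith)) e3 (by positivity) e4
  have e6 : (Real.exp (-a) * (b - a)) / ((a * Real.exp (-a)) * (b * Real.exp (-b))) =
      (b - a) * Real.exp b / (a * b) := by
    rw [Real.exp_neg b]
    have := Real.exp_pos (-a)
    have := Real.exp_pos b
    field_simp
  rw [e6] at e5
  refine e5.trans ?_
  apply div_le_div_of_nonneg_right _ (by positivity)
  exact mul_le_mul_of_nonneg_left (Real.exp_le_exp.2 hb) (by linarith)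

theorem mg_diff {a b s2 : ℝ} (ha : 0 < a) (hb : 0 < b) (ha2 : a ≤ s2) (hb2 : b ≤ s2) :
    |mg a - mg b| ≤ |a - b| * Real.exp s2 / (a * b) := by
  rcases le_total a b with h | h
  · have := mg_diff_aux ha h hb2
    rw [abs_sub_comm a b, abs_of_nonneg (sub_nonneg.2 h)]
    exact this
  · have := mg_diff_aux hb h ha2
    rw [abs_sub_comm (mg a), abs_of_nonneg (sub_nonneg.2 h), mul_comm a b]
    exact this

/-- the weights of the sequence -/
noncomputable def ww (L : ℕ) (σ : ℝ) (u : ℕ → ℕ) : ℝ :=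
  ∏ j ∈ Finset.Icc 1 L, ((1 - Real.exp (-(σ * j))) * Real.exp (-(σ * j * u j)))

theorem ww_nonneg (L : ℕ) (σ : ℝ) (hσ : 0 < σ) (u : ℕ → ℕ) : 0 ≤ ww L σ u := by
  apply Finset.prod_nonneg
  intro j hj
  have hj1 : (0 : ℝ) < j := by exact_mod_cast (Finset.mem_Icc.1 hj).1
  exact mul_nonneg (osp (mul_pos hσ hj1)).le (Real.exp_pos _).le

theorem ww_le (L : ℕ) (σ σ' : ℝ) (hσ : 0 < σ) (hσ' : 0 < σ') (u : ℕ → ℕ) :
    ww L σ' u ≤ ww L σ u *
      Real.exp (∑ j ∈ Finset.Icc 1 L, ((σ' - σ) * j) * (mg (σ * j) - u j)) := by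
  rw [Real.exp_sum]
  unfold ww
  rw [← Finset.prod_mul_distrib]
  apply Finset.prod_le_prod
  · intro j hj
    have hj1 : (0 : ℝ) < j := by exact_mod_cast (Finset.mem_Icc.1 hj).1
    exact mul_nonneg (osp (mul_pos hσ' hj1)).le (Real.exp_pos _).le
  · intro j hj
    have hj1 : (0 : ℝ) < j := by exact_mod_cast (Finset.mem_Icc.1 hj).1
    have hp := osp (mul_pos hσ hj1)
    set a := σ * (j : ℝ) with ha
    set x := (σ' - σ) * (j : ℝ) with hx
    have hax : σ' * (j : ℝ) = a + x := by rw [ha, hx]; ring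
    rw [hax]
    have e1 : 1 - Real.exp (-(a + x)) = (1 - Real.exp (-a)) * (1 + mg a * (1 - Real.exp (-x))) := by
      unfold mg
      rw [neg_add, Real.exp_add]
      field_simp
      ring
    have e2 : 1 - Real.exp (-x) ≤ x := by
      have := Real.add_one_le_exp (-x)
      linarith
    have e3 : 1 + mg a * (1 - Real.exp (-x)) ≤ Real.exp (x * mg a) := by
      have h1 := mul_le_mul_of_nonneg_left e2 (mg_pos (mul_pos hσ hj1)).le
      have h2 := Real.add_one_le_exp (x * mg a)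
      linarith
    have e4 : 1 - Real.exp (-(a + x)) ≤ (1 - Real.exp (-a)) * Real.exp (x * mg a) := by
      rw [e1]
      exact mul_le_mul_of_nonneg_left e3 hp.le
    calc (1 - Real.exp (-(a + x))) * Real.exp (-((a + x) * (u j : ℝ)))
        ≤ ((1 - Real.exp (-a)) * Real.exp (x * mg a)) * Real.exp (-((a + x) * (u j : ℝ))) :=
          mul_le_mul_of_nonneg_right e4 (Real.exp_pos _).le
      _ = (1 - Real.exp (-a)) * (Real.exp (x * mg a) * Real.exp (-((a + x) * (u j : ℝ)))) := by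
          ring
      _ = (1 - Real.exp (-a)) * (Real.exp (-(a * (u j : ℝ))) *
            Real.exp (x * (mg a - (u j : ℝ)))) := by
          rw [← Real.exp_add, ← Real.exp_add]
          congr 2
          ring
      _ = (1 - Real.exp (-a)) * Real.exp (-(a * (u j : ℝ))) * Real.exp (x * (mg a - (u j : ℝ))) := by
          ring

theorem exp_half : Real.exp (1 / 2) ≤ 2 := by
  have h1 : Real.exp (1 / 2) * Real.exp (1 / 2) = Real.exp 1 := by
    rw [← Real.exp_add]
    norm_num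
  have h2 := Real.exp_one_lt_d9
  have h3 := Real.exp_pos (1 / 2)
  nlinarith

theorem ww_good (L : ℕ) (σ σ' s2 : ℝ) (hσ : 0 < σ) (hσ' : 0 < σ') (h2 : σ * L ≤ s2)
    (h2' : σ' * L ≤ s2) (hsm : (σ' - σ) ^ 2 * Real.exp s2 * L / (σ * σ') ≤ 1 / 4) (u : ℕ → ℕ)
    (hu : |σ' - σ| * |∑ j ∈ Finset.Icc 1 L, (j : ℝ) * ((u j : ℝ) - mg (σ' * j))| ≤ 1 / 4) :
    ww L σ' u ≤ 2 * ww L σ u := by
  refine (ww_le L σ σ' hσ hσ' u).trans ?_
  have e1 : ∑ j ∈ Finset.Icc 1 L, ((σ' - σ) * j) * (mg (σ * j) - u j) =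
      ∑ j ∈ Finset.Icc 1 L, ((σ' - σ) * j) * (mg (σ * j) - mg (σ' * j)) +
        (-(σ' - σ)) * ∑ j ∈ Finset.Icc 1 L, (j : ℝ) * ((u j : ℝ) - mg (σ' * j)) := by
    rw [Finset.mul_sum, ← Finset.sum_add_distrib]
    apply Finset.sum_congr rfl
    intro j _
    ring
  have e2 : ∑ j ∈ Finset.Icc 1 L, ((σ' - σ) * j) * (mg (σ * j) - mg (σ' * j)) ≤ 1 / 4 := by
    have h3 : ∀ j ∈ Finset.Icc 1 L, ((σ' - σ) * (j : ℝ)) * (mg (σ * j) - mg (σ' * j)) ≤
        (σ' - σ) ^ 2 * Real.exp s2 / (σ * σ') := by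
      intro j hj
      have hj1 : (0 : ℝ) < j := by exact_mod_cast (Finset.mem_Icc.1 hj).1
      have hjL : (j : ℝ) ≤ L := by exact_mod_cast (Finset.mem_Icc.1 hj).2
      have h4 := mg_diff (mul_pos hσ hj1) (mul_pos hσ' hj1)
        ((mul_le_mul_of_nonneg_left hjL hσ.le).trans h2)
        ((mul_le_mul_of_nonneg_left hjL hσ'.le).trans h2')
      have h5 : |σ * (j : ℝ) - σ' * j| = |σ' - σ| * j := by
        rw [← sub_mul, abs_mul, abs_of_pos hj1, abs_sub_comm]
      rw [h5] at h4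
      calc ((σ' - σ) * (j : ℝ)) * (mg (σ * j) - mg (σ' * j))
          ≤ |((σ' - σ) * (j : ℝ)) * (mg (σ * j) - mg (σ' * j))| := le_abs_self _
        _ = (|σ' - σ| * j) * |mg (σ * j) - mg (σ' * j)| := by
            rw [abs_mul, abs_mul, abs_of_pos hj1]
        _ ≤ (|σ' - σ| * j) * (|σ' - σ| * j * Real.exp s2 / (σ * j * (σ' * j))) :=
            mul_le_mul_of_nonneg_left h4 (by positivity)
        _ = |σ' - σ| ^ 2 * Real.exp s2 / (σ * σ') := by
            field_simp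
        _ = (σ' - σ) ^ 2 * Real.exp s2 / (σ * σ') := by rw [sq_abs]
    have h4 := Finset.sum_le_sum h3
    rw [Finset.sum_const, Nat.card_Icc, Nat.add_sub_cancel, nsmul_eq_mul] at h4
    refine h4.trans (le_trans (le_of_eq ?_) hsm)
    ring
  have e3 : (-(σ' - σ)) * ∑ j ∈ Finset.Icc 1 L, (j : ℝ) * ((u j : ℝ) - mg (σ' * j)) ≤ 1 / 4 := by
    refine (le_abs_self _).trans ?_
    rw [abs_mul, abs_neg]
    exact hu
  rw [e1, mul_comm 2]
  apply mul_le_mul_of_nonneg_left _ (ww_nonneg L σ hσ u)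
  refine le_trans (Real.exp_le_exp.2 (?_ : _ ≤ (1 : ℝ) / 2)) exp_half
  linarith

/-- the vector of the coordinates in `[1,L]` -/
noncomputable def gv (L : ℕ) (σ : ℝ) (ω : ℕ → ℝ) (j : Finset.Icc 1 L) : ℕ := gs σ ω (j : ℕ)

/-- extension by zero -/
def exu (L : ℕ) (u : Finset.Icc 1 L → ℕ) (j : ℕ) : ℕ :=
  if h : j ∈ Finset.Icc 1 L then u ⟨j, h⟩ else 0

theorem exu_gv (L : ℕ) (σ : ℝ) (ω : ℕ → ℝ) (j : ℕ) (hj : j ∈ Finset.Icc 1 L) :
    exu L (gv L σ ω) j = gs σ ω j := by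
  unfold exu
  rw [dif_pos hj]
  rfl

theorem meas_gv (L : ℕ) (σ : ℝ) : Measurable (gv L σ) := by
  refine measurable_pi_lambda _ fun j => ?_
  have h2 : Measurable fun ω : ℕ → ℝ => |ω (j : ℕ)| :=
    continuous_abs.measurable.comp (measurable_pi_apply (j : ℕ))
  exact Nat.measurable_floor.comp (h2.div_const _)

theorem law (h1 : S_L3) (L : ℕ) (σ : ℝ) (hσ : 0 < σ) (u : Finset.Icc 1 L → ℕ) :
    PP.real (gv L σ ⁻¹' {u}) = ww L σ (exu L u) := by
  have hset : gv L σ ⁻¹' {u} = Set.pi (↑(Finset.Icc 1 L))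
      (fun j : ℕ => {x : ℝ | ⌊|x| / (σ * (j : ℝ))⌋₊ = exu L u j}) := by
    ext ω
    constructor
    · intro h j hj
      have h2 : gv L σ ω = u := h
      have hj' : j ∈ Finset.Icc 1 L := Finset.mem_coe.1 hj
      show gs σ ω j = exu L u j
      rw [← h2, exu_gv L σ ω j hj']
    · intro h
      show gv L σ ω = u
      funext j
      have h2 : gs σ ω (j : ℕ) = exu L u j := h (j : ℕ) (Finset.mem_coe.2 j.2)
      show gs σ ω (j : ℕ) = u j
      rw [h2]
      unfold exu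
      rw [dif_pos j.2]
  rw [hset]
  unfold Measure.real PP
  rw [Measure.infinitePi_pi _ (fun j _ => Pool.Agent.H922.GP174.meas_floor _ _),
    ENNReal.toReal_prod]
  unfold ww
  refine Finset.prod_congr rfl fun j hj => ?_
  have hj1 : (0 : ℝ) < j := by exact_mod_cast (Finset.mem_Icc.1 hj).1
  have h2 := Pool.Agent.H922.GP174.geom h1 (σ * (j : ℝ)) (mul_pos hσ hj1) (exu L u j)
  unfold Measure.real at h2
  rw [h2]

/-- domination on a countable space -/
theorem dom {K : Type} [Countable K] [MeasurableSpace K] [MeasurableSingletonClass K]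
    (μ ν : Measure K) (V : Set K) (h : ∀ x ∈ V, μ {x} ≤ 2 * ν {x}) : μ V ≤ 2 * ν V := by
  have hV : MeasurableSet V := V.to_countable.measurableSet
  rw [← μ.tsum_indicator_apply_singleton V hV, ← ν.tsum_indicator_apply_singleton V hV,
    ← ENNReal.tsum_mul_left]
  apply ENNReal.tsum_le_tsum
  intro x
  by_cases hx : x ∈ V
  · rw [Set.indicator_of_mem hx, Set.indicator_of_mem hx]
    exact h x hx
  · rw [Set.indicator_of_notMem hx, Set.indicator_of_notMem hx]
    simp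

/-- the exponential bound -/
theorem tail (h1 : S_mgfg) (h2 : S_chern) (s2 : ℝ) (hs2 : 0 < s2) : ∃ Cm : ℝ, 0 < Cm ∧
    ∀ (L : ℕ) (σ t : ℝ), 0 < σ → 1 ≤ L → σ * L ≤ s2 →
    PP.real {ω | t ≤ |∑ j ∈ Finset.Icc 1 L, (j : ℝ) * ((gs σ ω j : ℝ) - mg (σ * j))|} ≤
      2 * Real.exp (-(σ / (4 * Real.sqrt L) * t) + Cm / 16) := by
  obtain ⟨Cm, hCm, h⟩ := h1 s2 hs2
  refine ⟨Cm, hCm, ?_⟩
  intro L σ t hσ hL hLs
  have hLr : (1 : ℝ) ≤ L := by exact_mod_cast hL
  have hsq : 1 ≤ Real.sqrt L := by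
    rw [Real.one_le_sqrt]
    exact hLr
  have hsq0 : 0 < Real.sqrt L := by linarith
  set θ : ℝ := σ / (4 * Real.sqrt L) with hθ
  have hθ0 : 0 < θ := by positivity
  set φ : ℕ → ℝ → ℝ := fun j x => (j : ℝ) * ((⌊|x| / (σ * j)⌋₊ : ℝ) - mg (σ * j)) with hφ
  have key : ∀ j ∈ Finset.Icc 1 L, ∀ r : ℝ, |r| = θ →
      Integrable (fun x => Real.exp (r * φ j x)) lap ∧
      (∫ x, Real.exp (r * φ j x) ∂lap) ≤ Real.exp (Cm / (16 * L)) := by
    intro j hj r hr
    have hj1 : (0 : ℝ) < j := by exact_mod_cast (Finset.mem_Icc.1 hj).1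
    have hjL : (j : ℝ) ≤ L := by exact_mod_cast (Finset.mem_Icc.1 hj).2
    have hb : |r * (j : ℝ)| ≤ σ * (j : ℝ) / 4 := by
      rw [abs_mul, hr, abs_of_pos hj1, hθ]
      have : σ / (4 * Real.sqrt L) ≤ σ / 4 := by
        apply div_le_div_of_nonneg_left hσ.le (by norm_num)
        linarith
      calc σ / (4 * Real.sqrt L) * (j : ℝ) ≤ σ / 4 * j := mul_le_mul_of_nonneg_right this hj1.le
        _ = _ := by ring
    obtain ⟨a1, a2⟩ := h (σ * j) (r * j) (mul_pos hσ hj1)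
      ((mul_le_mul_of_nonneg_left hjL hσ.le).trans hLs) hb
    have e1 : ∀ x : ℝ, Real.exp (r * j * ((⌊|x| / (σ * j)⌋₊ : ℝ) -
        Real.exp (-(σ * j)) / (1 - Real.exp (-(σ * j))))) = Real.exp (r * φ j x) := by
      intro x
      simp only [hφ, mg]
      congr 1
      ring
    simp_rw [e1] at a1 a2
    refine ⟨a1, a2.trans (Real.exp_le_exp.2 (le_of_eq ?_))⟩
    have e2 : (r * (j : ℝ)) ^ 2 = θ ^ 2 * (j : ℝ) ^ 2 := by
      rw [mul_pow, ← sq_abs r, hr]
    rw [e2, hθ]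
    have e3 : Real.sqrt L ^ 2 = L := Real.sq_sqrt (by positivity)
    have e4 : (σ / (4 * Real.sqrt L)) ^ 2 = σ ^ 2 / (16 * L) := by
      rw [div_pow, mul_pow, e3]
      norm_num
    rw [e4]
    have hL0 : (0 : ℝ) < L := by linarith
    field_simp
  have hmeas : ∀ j ∈ Finset.Icc 1 L, Measurable (φ j) := by
    intro j _
    have m1 : Measurable (fun x : ℝ => ⌊|x| / (σ * j)⌋₊) :=
      Nat.measurable_floor.comp (continuous_abs.measurable.div_const _)
    have m2 : Measurable (fun n : ℕ => (n : ℝ)) := measurable_from_top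
    exact ((m2.comp m1).sub_const _).const_mul _
  have hneg : ∀ j : ℕ, (fun x => Real.exp (-(θ * φ j x))) = fun x => Real.exp ((-θ) * φ j x) := by
    intro j
    funext x
    rw [neg_mul]
  have h3 := h2 (Finset.Icc 1 L) φ (fun _ => Cm / (16 * L)) θ t hθ0.le hmeas
    (fun j hj => ⟨(key j hj θ (abs_of_pos hθ0)).1, by
      rw [hneg]
      exact (key j hj (-θ) (by rw [abs_neg, abs_of_pos hθ0])).1⟩)
    (fun j hj => ⟨(key j hj θ (abs_of_pos hθ0)).2, by
      rw [hneg]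
      exact (key j hj (-θ) (by rw [abs_neg, abs_of_pos hθ0])).2⟩)
  have e5 : ∑ j ∈ Finset.Icc 1 L, Cm / (16 * (L : ℝ)) = Cm / 16 := by
    rw [Finset.sum_const, Nat.card_Icc, Nat.add_sub_cancel, nsmul_eq_mul]
    field_simp
  rw [e5] at h3
  exact h3

/-- one sequence -/
theorem one_seq (h3 : S_L3) (L : ℕ) (σ σ' s2 ε : ℝ) (hσ : 0 < σ) (hσ' : 0 < σ') (h2 : σ * L ≤ s2)
    (h2' : σ' * L ≤ s2) (hsm : (σ' - σ) ^ 2 * Real.exp s2 * L / (σ * σ') ≤ 1 / 4) (_hε : 0 ≤ ε)
    (hbad : σ' ≠ σ → PP.real {ω | 1 / (4 * |σ' - σ|) ≤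
      |∑ j ∈ Finset.Icc 1 L, (j : ℝ) * ((gs σ' ω j : ℝ) - mg (σ' * j))|} ≤ ε)
    (V : Set (Finset.Icc 1 L → ℕ)) :
    (PP.map (gv L σ')) V ≤ 2 * (PP.map (gv L σ)) V + ENNReal.ofReal ε := by
  set Good : Set (Finset.Icc 1 L → ℕ) := {u | |σ' - σ| *
    |∑ j ∈ Finset.Icc 1 L, (j : ℝ) * ((exu L u j : ℝ) - mg (σ' * j))| ≤ 1 / 4} with hG
  have hmeasV : ∀ W : Set (Finset.Icc 1 L → ℕ), MeasurableSet W :=
    fun W => W.to_countable.measurableSet
  have e1 : (PP.map (gv L σ')) V ≤ (PP.map (gv L σ')) (V ∩ Good) +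
      (PP.map (gv L σ')) Goodᶜ := by
    refine (measure_mono ?_).trans (measure_union_le _ _)
    intro u hu
    by_cases h : u ∈ Good
    · exact Or.inl ⟨hu, h⟩
    · exact Or.inr h
  have e2 : (PP.map (gv L σ')) (V ∩ Good) ≤ 2 * (PP.map (gv L σ)) (V ∩ Good) := by
    apply dom
    intro u hu
    rw [Measure.map_apply (meas_gv L σ') (hmeasV _), Measure.map_apply (meas_gv L σ) (hmeasV _)]
    have a1 := law h3 L σ hσ u
    have a2 := law h3 L σ' hσ' u
    have a3 := ww_good L σ σ' s2 hσ hσ' h2 h2' hsm (exu L u) hu.2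
    rw [← a1, ← a2] at a3
    unfold Measure.real at a3
    have a4 : ENNReal.ofReal (PP (gv L σ' ⁻¹' {u})).toReal ≤
        ENNReal.ofReal (2 * (PP (gv L σ ⁻¹' {u})).toReal) := ENNReal.ofReal_le_ofReal a3
    rw [ENNReal.ofReal_mul (by norm_num), ENNReal.ofReal_toReal (measure_ne_top _ _),
      ENNReal.ofReal_toReal (measure_ne_top _ _)] at a4
    simpa using a4
  have e3 : (PP.map (gv L σ')) Goodᶜ ≤ ENNReal.ofReal ε := by
    rw [Measure.map_apply (meas_gv L σ') (hmeasV _)]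
    by_cases hd : σ' = σ
    · have : gv L σ' ⁻¹' Goodᶜ = ∅ := by
        rw [Set.eq_empty_iff_forall_notMem]
        intro ω hω
        apply hω
        show |σ' - σ| * _ ≤ (1 : ℝ) / 4
        rw [hd, sub_self, abs_zero, zero_mul]
        norm_num
      rw [this, measure_empty]
      exact bot_le
    · have hb := hbad hd
      have hpos : 0 < |σ' - σ| := abs_pos.2 (sub_ne_zero.2 hd)
      rw [← ENNReal.ofReal_toReal (measure_ne_top PP (gv L σ' ⁻¹' Goodᶜ))]
      apply ENNReal.ofReal_le_ofReal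
      refine le_trans (measureReal_mono ?_ (measure_ne_top _ _)) hb
      intro ω hω
      have hω' : ¬ (|σ' - σ| * |∑ j ∈ Finset.Icc 1 L,
        (j : ℝ) * ((exu L (gv L σ' ω) j : ℝ) - mg (σ' * j))| ≤ 1 / 4) := hω
      have e4 : ∑ j ∈ Finset.Icc 1 L, (j : ℝ) * ((exu L (gv L σ' ω) j : ℝ) - mg (σ' * j)) =
          ∑ j ∈ Finset.Icc 1 L, (j : ℝ) * ((gs σ' ω j : ℝ) - mg (σ' * j)) :=
        Finset.sum_congr rfl (fun j hj => by rw [exu_gv L σ' ω j hj])
      rw [e4, not_le] at hω'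
      show 1 / (4 * |σ' - σ|) ≤ |∑ j ∈ Finset.Icc 1 L, (j : ℝ) * ((gs σ' ω j : ℝ) - mg (σ' * j))|
      rw [div_le_iff₀ (by positivity)]
      linarith
  calc (PP.map (gv L σ')) V ≤ (PP.map (gv L σ')) (V ∩ Good) + (PP.map (gv L σ')) Goodᶜ := e1
    _ ≤ 2 * (PP.map (gv L σ)) (V ∩ Good) + ENNReal.ofReal ε := add_le_add e2 e3
    _ ≤ 2 * (PP.map (gv L σ)) V + ENNReal.ofReal ε := by
        gcongr
        exact Set.inter_subset_left

/-- the two sequences as a measure on a countable space -/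
theorem transfer (L : ℕ) (F : Set ((ℕ → ℕ) × (ℕ → ℕ))) (hF : DepZ L F) (a b : ℝ) :
    (PP.prod PP) {p | ((fun j => gs a p.1 j), (fun j => gs b p.2 j)) ∈ F} =
      ((PP.map (gv L a)).prod (PP.map (gv L b)))
        {q : (Finset.Icc 1 L → ℕ) × (Finset.Icc 1 L → ℕ) | (exu L q.1, exu L q.2) ∈ F} := by
  rw [Measure.map_prod_map PP PP (meas_gv L a) (meas_gv L b),
    Measure.map_apply ((meas_gv L a).prodMap (meas_gv L b)) (Set.to_countable _).measurableSet]
  congr 1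
  ext p
  constructor
  · intro h
    show (exu L (gv L a p.1), exu L (gv L b p.2)) ∈ F
    exact hF _ _ (fun j hj => ⟨(exu_gv L a p.1 j hj).symm, (exu_gv L b p.2 j hj).symm⟩) h
  · intro h
    have h' : (exu L (gv L a p.1), exu L (gv L b p.2)) ∈ F := h
    exact hF _ _ (fun j hj => ⟨exu_gv L a p.1 j hj, exu_gv L b p.2 j hj⟩) h'

/-- products, second factor changed -/
theorem prod_second {K : Type} [Countable K] [MeasurableSpace K] [MeasurableSingletonClass K]
    (ρ μ ν : Measure K) [IsProbabilityMeasure ρ] [IsProbabilityMeasure μ] [IsProbabilityMeasure ν]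
    (ε : ENNReal) (h : ∀ V : Set K, μ V ≤ 2 * ν V + ε) (W : Set (K × K)) :
    (ρ.prod μ) W ≤ 2 * (ρ.prod ν) W + ε := by
  have hW : MeasurableSet W := W.to_countable.measurableSet
  rw [Measure.prod_apply hW, Measure.prod_apply hW]
  calc ∫⁻ x, μ (Prod.mk x ⁻¹' W) ∂ρ ≤ ∫⁻ x, (2 * ν (Prod.mk x ⁻¹' W) + ε) ∂ρ :=
        lintegral_mono (fun x => h _)
    _ = 2 * ∫⁻ x, ν (Prod.mk x ⁻¹' W) ∂ρ + ε := by
        rw [lintegral_add_right _ measurable_const, lintegral_const_mul _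
          (measurable_measure_prodMk_left hW), lintegral_const, measure_univ, mul_one]

/-- products, first factor changed -/
theorem prod_first {K : Type} [Countable K] [MeasurableSpace K] [MeasurableSingletonClass K]
    (ρ μ ν : Measure K) [IsProbabilityMeasure ρ] [IsProbabilityMeasure μ] [IsProbabilityMeasure ν]
    (ε : ENNReal) (h : ∀ V : Set K, μ V ≤ 2 * ν V + ε) (W : Set (K × K)) :
    (μ.prod ρ) W ≤ 2 * (ν.prod ρ) W + ε := by
  have hW : MeasurableSet W := W.to_countable.measurableSet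
  rw [Measure.prod_apply_symm hW, Measure.prod_apply_symm hW]
  calc ∫⁻ y, μ ((fun x => (x, y)) ⁻¹' W) ∂ρ ≤ ∫⁻ y, (2 * ν ((fun x => (x, y)) ⁻¹' W) + ε) ∂ρ :=
        lintegral_mono (fun x => h _)
    _ = 2 * ∫⁻ y, ν ((fun x => (x, y)) ⁻¹' W) ∂ρ + ε := by
        rw [lintegral_add_right _ measurable_const, lintegral_const_mul _
          (measurable_measure_prodMk_right hW), lintegral_const, measure_univ, mul_one]

theorem toReal_bound {a b : ENNReal} {ε : ℝ} (hε : 0 ≤ ε) (hb : b ≠ ⊤)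
    (h : a ≤ 2 * b + ENNReal.ofReal ε) : a.toReal ≤ 2 * b.toReal + ε := by
  have h1 : (2 * b + ENNReal.ofReal ε) ≠ ⊤ :=
    ENNReal.add_ne_top.2 ⟨ENNReal.mul_ne_top (by simp) hb, ENNReal.ofReal_ne_top⟩
  have h2 := ENNReal.toReal_mono h1 h
  rw [ENNReal.toReal_add (ENNReal.mul_ne_top (by simp) hb) ENNReal.ofReal_ne_top,
    ENNReal.toReal_mul, ENNReal.toReal_ofReal hε] at h2
  simpa using h2

theorem log_small (s κ : ℝ) (hs : 0 < s) (hκ : 0 < κ) :
    ∀ᶠ d : ℕ in atTop, Real.log d ≤ κ * (d : ℝ) ^ s := by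
  have h := (isLittleO_log_rpow_atTop hs).bound hκ
  have h' := tendsto_natCast_atTop_atTop.eventually h
  filter_upwards [h'] with d hd
  rw [Real.norm_eq_abs, Real.norm_eq_abs, abs_of_nonneg (Real.rpow_nonneg (Nat.cast_nonneg d) _)]
    at hd
  exact (le_abs_self _).trans hd

end Tilt

open Pool.Agent.H116.GP174.Tilt in
theorem gp_tilt (h1 : S_mgfg) (h2 : S_chern) (h3 : S_L3) : Pool.Agent.H174.GP.S_tilt := by
  intro s1 s2 C e A hs1 hs2 hC he he1 hA
  obtain ⟨Cm, hCm, ht⟩ := Tilt.tail h1 h2 s2 hs2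
  have hk1 : 0 < s1 ^ 2 / (4 * (C ^ 2 * Real.exp s2)) := by positivity
  have hk2 : 0 < s1 / (32 * C * A) := by positivity
  have ev1 := log_small e _ he hk1
  have ev2 := log_small (e / 2) 1 (by linarith) one_pos
  have ev3 := log_small (e / 4) _ (by linarith) hk2
  have ev4 : ∀ᶠ d : ℕ in atTop, (Real.log 2 + Cm / 16) * (32 * C / s1) ≤ (d : ℝ) ^ (e / 4) :=
    ((tendsto_rpow_atTop (by linarith : 0 < e / 4)).comp
      tendsto_natCast_atTop_atTop).eventually_ge_atTop _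
  obtain ⟨d0, hd0⟩ := Filter.eventually_atTop.1
    (((ev1.and ev2).and (ev3.and ev4)).and (Filter.eventually_ge_atTop 2))
  refine ⟨d0, ?_⟩
  intro d hd σ σ' hσ hσ' hr1 hr2 hr1' hr2' hΔ L hL F hF
  obtain ⟨⟨⟨a1, a2⟩, ⟨a3, a4⟩⟩, a5⟩ := hd0 d hd
  have hD2 : (2 : ℝ) ≤ d := by exact_mod_cast a5
  set D : ℝ := (d : ℝ) with hDd
  have hD0 : 0 < D := by linarith
  have hlog : 0 ≤ Real.log D := Real.log_nonneg (by linarith)
  -- the length
  set M : ℕ := max L 1 with hM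
  have hM1 : 1 ≤ M := le_max_right _ _
  have hMr : (1 : ℝ) ≤ M := by exact_mod_cast hM1
  have hMD : (M : ℝ) ≤ D ^ (1 - e) := by
    have e1 : (1 : ℝ) ≤ D ^ (1 - e) := Real.one_le_rpow (by linarith) (by linarith)
    rcases max_choice L 1 with h | h
    · rw [hM, h]; exact hL
    · rw [hM, h]; simpa using e1
  have hMd : (M : ℝ) ≤ D := by
    refine hMD.trans ?_
    calc D ^ (1 - e) ≤ D ^ (1 : ℝ) := Real.rpow_le_rpow_of_exponent_le (by linarith) (by linarith)
      _ = D := Real.rpow_one D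
  have hFM : DepZ M F := by
    intro p p' h hp
    refine hF p p' (fun j hj => h j ?_) hp
    rw [Finset.mem_Icc] at hj ⊢
    exact ⟨hj.1, hj.2.trans (le_max_left _ _)⟩
  have hb1 : σ * M ≤ s2 := (mul_le_mul_of_nonneg_left hMd hσ.le).trans hr2
  have hb2 : σ' * M ≤ s2 := (mul_le_mul_of_nonneg_left hMd hσ'.le).trans hr2'
  have hΔ' : |σ' - σ| ≤ C * Real.sqrt (Real.log D) * D ^ (-(3 / 2) : ℝ) := by
    rw [abs_sub_comm]
    exact hΔ
  have hε : (0 : ℝ) ≤ D ^ (-A) := Real.rpow_nonneg hD0.le _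
  -- the small term
  have hsm : (σ' - σ) ^ 2 * Real.exp s2 * M / (σ * σ') ≤ 1 / 4 := by
    rw [div_le_iff₀ (mul_pos hσ hσ')]
    have e1 : (σ' - σ) ^ 2 ≤ C ^ 2 * Real.log D * D ^ (-3 : ℝ) := by
      have e2 : (σ' - σ) ^ 2 ≤ (C * Real.sqrt (Real.log D) * D ^ (-(3 / 2) : ℝ)) ^ 2 := by
        rw [← sq_abs (σ' - σ)]
        exact pow_le_pow_left₀ (abs_nonneg _) hΔ' 2
      have e3 : (D ^ (-(3 / 2) : ℝ)) ^ 2 = D ^ (-3 : ℝ) := by
        rw [← Real.rpow_natCast, ← Real.rpow_mul hD0.le]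
        norm_num
      rw [mul_pow, mul_pow, Real.sq_sqrt hlog, e3] at e2
      exact e2
    have e4 : s1 ^ 2 * D ^ (-2 : ℝ) ≤ σ * σ' := by
      have e5 : D ^ (-2 : ℝ) = 1 / (D * D) := by
        rw [Real.rpow_neg hD0.le, show (2 : ℝ) = ((2 : ℕ) : ℝ) by norm_num, Real.rpow_natCast]
        field_simp
      have e6 : s1 * s1 ≤ (σ * D) * (σ' * D) := mul_le_mul hr1 hr1' hs1.le (by positivity)
      rw [e5, mul_one_div, div_le_iff₀ (by positivity)]
      nlinarith
    have e7 : D ^ (-3 : ℝ) * D ^ (1 - e) * D ^ e = D ^ (-2 : ℝ) := by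
      rw [← Real.rpow_add hD0, ← Real.rpow_add hD0]
      congr 1
      ring
    have hp3 : 0 < D ^ (-3 : ℝ) := Real.rpow_pos_of_pos hD0 _
    have hpe : 0 < D ^ (1 - e) := Real.rpow_pos_of_pos hD0 _
    calc (σ' - σ) ^ 2 * Real.exp s2 * M
        ≤ (C ^ 2 * Real.log D * D ^ (-3 : ℝ)) * Real.exp s2 * D ^ (1 - e) := by
          apply mul_le_mul (mul_le_mul_of_nonneg_right e1 (Real.exp_pos _).le) hMD (by positivity)
          positivity
      _ = (C ^ 2 * Real.exp s2 * (D ^ (-3 : ℝ) * D ^ (1 - e))) * Real.log D := by ring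
      _ ≤ (C ^ 2 * Real.exp s2 * (D ^ (-3 : ℝ) * D ^ (1 - e))) *
            (s1 ^ 2 / (4 * (C ^ 2 * Real.exp s2)) * D ^ e) :=
          mul_le_mul_of_nonneg_left a1 (by positivity)
      _ = (C ^ 2 * Real.exp s2) * (s1 ^ 2 / (4 * (C ^ 2 * Real.exp s2))) *
            (D ^ (-3 : ℝ) * D ^ (1 - e) * D ^ e) := by ring
      _ = 1 / 4 * (s1 ^ 2 * D ^ (-2 : ℝ)) := by
          rw [e7]
          field_simp
      _ ≤ 1 / 4 * (σ * σ') := mul_le_mul_of_nonneg_left e4 (by norm_num)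
  -- the bad event
  have hbad : σ' ≠ σ → PP.real {ω | 1 / (4 * |σ' - σ|) ≤
      |∑ j ∈ Finset.Icc 1 M, (j : ℝ) * ((gs σ' ω j : ℝ) - mg (σ' * j))|} ≤ D ^ (-A) := by
    intro hne
    have hpos : 0 < |σ' - σ| := abs_pos.2 (sub_ne_zero.2 hne)
    refine (ht M σ' (1 / (4 * |σ' - σ|)) hσ' hM1 hb2).trans ?_
    have e2 : D ^ (-A) = Real.exp (Real.log D * (-A)) := Real.rpow_def_of_pos hD0 _
    rw [e2]
    have e3 : 2 * Real.exp (-(σ' / (4 * Real.sqrt M) * (1 / (4 * |σ' - σ|))) + Cm / 16) =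
        Real.exp (Real.log 2 + (-(σ' / (4 * Real.sqrt M) * (1 / (4 * |σ' - σ|))) + Cm / 16)) := by
      rw [Real.exp_add (Real.log 2), Real.exp_log (by norm_num : (0 : ℝ) < 2)]
    rw [e3]
    apply Real.exp_le_exp.2
    have hsM : 0 < Real.sqrt M := Real.sqrt_pos.2 (by linarith)
    have e4 : σ' / (4 * Real.sqrt M) * (1 / (4 * |σ' - σ|)) =
        σ' / (16 * (Real.sqrt M * |σ' - σ|)) := by
      field_simp
      norm_num
    have e5 : Real.sqrt M ≤ D ^ ((1 - e) / 2) := by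
      rw [Real.sqrt_le_left (Real.rpow_nonneg hD0.le _)]
      have : (D ^ ((1 - e) / 2)) ^ 2 = D ^ (1 - e) := by
        rw [← Real.rpow_natCast, ← Real.rpow_mul hD0.le]
        congr 1
        push_cast
        ring
      rw [this]
      exact hMD
    have e6 : Real.sqrt (Real.log D) ≤ D ^ (e / 4) := by
      rw [Real.sqrt_le_left (Real.rpow_nonneg hD0.le _)]
      have : (D ^ (e / 4)) ^ 2 = D ^ (e / 2) := by
        rw [← Real.rpow_natCast, ← Real.rpow_mul hD0.le]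
        congr 1
        push_cast
        ring
      rw [this]
      simpa using a2
    have e7 : Real.sqrt M * |σ' - σ| ≤ C * D ^ (-1 - e / 4) := by
      have e8 : |σ' - σ| ≤ C * D ^ (e / 4) * D ^ (-(3 / 2) : ℝ) := by
        refine hΔ'.trans ?_
        apply mul_le_mul_of_nonneg_right _ (Real.rpow_nonneg hD0.le _)
        exact mul_le_mul_of_nonneg_left e6 hC.le
      have e9 : D ^ ((1 - e) / 2) * (C * D ^ (e / 4) * D ^ (-(3 / 2) : ℝ)) =
          C * D ^ (-1 - e / 4) := by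
        have : D ^ ((1 - e) / 2) * D ^ (e / 4) * D ^ (-(3 / 2) : ℝ) = D ^ (-1 - e / 4) := by
          rw [← Real.rpow_add hD0, ← Real.rpow_add hD0]
          congr 1
          ring
        rw [← this]
        ring
      rw [← e9]
      exact mul_le_mul e5 e8 hpos.le (Real.rpow_nonneg hD0.le _)
    have e10 : s1 / (16 * C) * D ^ (e / 4) ≤ σ' / (16 * (Real.sqrt M * |σ' - σ|)) := by
      rw [le_div_iff₀ (by positivity)]
      have e11 : D ^ (e / 4) * D ^ (-1 - e / 4) = 1 / D := by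
        rw [← Real.rpow_add hD0, show e / 4 + (-1 - e / 4) = (-1 : ℝ) by ring, Real.rpow_neg_one,
          one_div]
      have e12 : s1 / D ≤ σ' := by
        rw [div_le_iff₀ hD0]
        exact hr1'
      calc s1 / (16 * C) * D ^ (e / 4) * (16 * (Real.sqrt M * |σ' - σ|))
          ≤ s1 / (16 * C) * D ^ (e / 4) * (16 * (C * D ^ (-1 - e / 4))) := by
            apply mul_le_mul_of_nonneg_left _ (by positivity)
            exact mul_le_mul_of_nonneg_left e7 (by norm_num)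
        _ = s1 * (D ^ (e / 4) * D ^ (-1 - e / 4)) := by
            field_simp
        _ = s1 / D := by rw [e11, mul_one_div]
        _ ≤ σ' := e12
    have e13 : A * Real.log D ≤ s1 / (32 * C) * D ^ (e / 4) := by
      calc A * Real.log D ≤ A * (s1 / (32 * C * A) * D ^ (e / 4)) :=
            mul_le_mul_of_nonneg_left a3 hA.le
        _ = s1 / (32 * C) * D ^ (e / 4) := by
            field_simp
    have e14 : Real.log 2 + Cm / 16 ≤ s1 / (32 * C) * D ^ (e / 4) := by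
      calc Real.log 2 + Cm / 16 = s1 / (32 * C) * ((Real.log 2 + Cm / 16) * (32 * C / s1)) := by
            field_simp
        _ ≤ s1 / (32 * C) * D ^ (e / 4) := mul_le_mul_of_nonneg_left a4 (by positivity)
    have e15 : s1 / (16 * C) * D ^ (e / 4) = s1 / (32 * C) * D ^ (e / 4) +
        s1 / (32 * C) * D ^ (e / 4) := by
      field_simp
      norm_num
    rw [e4]
    linarith
  have key := one_seq h3 M σ σ' s2 (D ^ (-A)) hσ hσ' hb1 hb2 hsm hε hbad
  have i1 : IsProbabilityMeasure (PP.map (gv M σ)) :=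
    Measure.isProbabilityMeasure_map (meas_gv M σ).aemeasurable
  have i2 : IsProbabilityMeasure (PP.map (gv M σ')) :=
    Measure.isProbabilityMeasure_map (meas_gv M σ').aemeasurable
  constructor
  · have h4 := prod_second (PP.map (gv M σ)) (PP.map (gv M σ')) (PP.map (gv M σ)) _ key
      {q : (Finset.Icc 1 M → ℕ) × (Finset.Icc 1 M → ℕ) | (exu M q.1, exu M q.2) ∈ F}
    rw [← transfer M F hFM σ σ', ← transfer M F hFM σ σ] at h4
    exact toReal_bound hε (measure_ne_top _ _) h4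
  · have h4 := prod_first (PP.map (gv M σ)) (PP.map (gv M σ')) (PP.map (gv M σ)) _ key
      {q : (Finset.Icc 1 M → ℕ) × (Finset.Icc 1 M → ℕ) | (exu M q.1, exu M q.2) ∈ F}
    rw [← transfer M F hFM σ' σ, ← transfer M F hFM σ σ] at h4
    exact toReal_bound hε (measure_ne_top _ _) h4

end Pool.Agent.H116.GP174
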